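import Pool.Agent.W619.Y.Stm11

/-! Part DEN (helper619): common denominators in a compositum. -/

set_option autoImplicit false

universe u v

open IntermediateField

namespace Pool.Agent.W741.PG.DEN

section

variable {k : Type v} {L : Type u} [Field k] [Field L] [Algebra k L] {n : ℕ}
  (F : Fin n → IntermediateField k L) (P : Set (Fin n))

def Val (H : ∀ i, Finset (F i)) : Prop := (∀ i ∉ P, ∀ h ∈ H i, h = 1) ∧ ∀ i, 1 ∈ H i

def ZH (H : ∀ i, Finset (F i)) : Set L :=
  {z : L | ∃ h : ∀ i, F i, (∀ i, h i ∈ H i) ∧ z = ∏ i, (h i : L)}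

def ZZ : Set L := {z : L | ∃ h : ∀ i, F i, (∀ i ∉ P, h i = 1) ∧ z = ∏ i, (h i : L)}

theorem ZH_mono {H H' : ∀ i, Finset (F i)} (h : ∀ i, H i ⊆ H' i) : ZH F H ⊆ ZH F H' := by
  rintro z ⟨a, ha, rfl⟩
  exact ⟨a, fun i => h i (ha i), rfl⟩

open Classical in
theorem Val_union {H H' : ∀ i, Finset (F i)} (h : Val F P H) (h' : Val F P H') :
    Val F P (fun i => H i ∪ H' i) := by
  refine ⟨fun i hi a ha => ?_, fun i => Finset.mem_union_left _ (h.2 i)⟩
  rcases Finset.mem_union.1 ha with ha | ha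
  · exact h.1 i hi a ha
  · exact h'.1 i hi a ha

theorem Val_one : Val F P (fun _ => {1}) :=
  ⟨fun _ _ _ ha => Finset.mem_singleton.1 ha, fun _ => Finset.mem_singleton_self _⟩

theorem lemA (z : L) (hz : z ∈ Submodule.span k (ZZ F P)) :
    ∃ H : ∀ i, Finset (F i), Val F P H ∧ z ∈ Submodule.span k (ZH F H) := by
  classical
  induction hz using Submodule.span_induction with
  | mem x hx =>
    obtain ⟨h, h1, rfl⟩ := hx
    refine ⟨fun i => {1, h i}, ⟨fun i hi a ha => ?_, fun i => Finset.mem_insert_self _ _⟩,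
      Submodule.subset_span ⟨h, fun i => Finset.mem_insert_of_mem (Finset.mem_singleton_self _),
        rfl⟩⟩
    rcases Finset.mem_insert.1 ha with ha | ha
    · exact ha
    · rw [Finset.mem_singleton.1 ha]
      exact h1 i hi
  | zero => exact ⟨fun _ => {1}, Val_one F P, Submodule.zero_mem _⟩
  | add x y _ _ hx hy =>
    obtain ⟨H, hH, hx⟩ := hx
    obtain ⟨H', hH', hy⟩ := hy
    exact ⟨fun i => H i ∪ H' i, Val_union F P hH hH', Submodule.add_mem _
      (Submodule.span_mono (ZH_mono F fun i => Finset.subset_union_left) hx)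
      (Submodule.span_mono (ZH_mono F fun i => Finset.subset_union_right) hy)⟩
  | smul a x _ hx =>
    obtain ⟨H, hH, hx⟩ := hx
    exact ⟨H, hH, Submodule.smul_mem _ a hx⟩

theorem lemB (T : Finset L) (hT : ∀ z ∈ T, z ∈ Submodule.span k (ZZ F P)) :
    ∃ H : ∀ i, Finset (F i), Val F P H ∧ ∀ z ∈ T, z ∈ Submodule.span k (ZH F H) := by
  classical
  induction T using Finset.induction_on with
  | empty => exact ⟨fun _ => {1}, Val_one F P, by simp⟩
  | insert a T ha ih =>
    obtain ⟨H, hH, h1⟩ := ih fun z hz => hT z (Finset.mem_insert_of_mem hz)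
    obtain ⟨H', hH', h2⟩ := lemA F P a (hT a (Finset.mem_insert_self _ _))
    refine ⟨fun i => H i ∪ H' i, Val_union F P hH hH', fun z hz => ?_⟩
    rcases Finset.mem_insert.1 hz with rfl | hz
    · exact Submodule.span_mono (ZH_mono F fun i => Finset.subset_union_right) h2
    · exact Submodule.span_mono (ZH_mono F fun i => Finset.subset_union_left) (h1 z hz)

theorem lemC (z : L) (hz : z ∈ Algebra.adjoin k (⋃ i : P, (F i : Set L))) :
    z ∈ Submodule.span k (ZZ F P) := by
  classical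
  have h : z ∈ Subalgebra.toSubmodule (Algebra.adjoin k (⋃ i : P, (F i : Set L))) := hz
  rw [Algebra.adjoin_eq_span] at h
  refine Submodule.span_mono ?_ h
  intro x hx
  induction hx using Submonoid.closure_induction with
  | mem x hx =>
    obtain ⟨i, hi⟩ := Set.mem_iUnion.1 hx
    refine ⟨Function.update (fun _ => 1) i.1 ⟨x, hi⟩, fun j hj => ?_, ?_⟩
    · rw [Function.update_of_ne]
      rintro rfl
      exact hj i.2
    · rw [Finset.prod_eq_single i.1]
      · rw [Function.update_self]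
      · intro b _ hb
        rw [Function.update_of_ne hb]
        rfl
      · intro h
        exact absurd (Finset.mem_univ _) h
  | one => exact ⟨fun _ => 1, fun _ _ => rfl, by simp⟩
  | mul x y _ _ hx hy =>
    obtain ⟨a, ha, rfl⟩ := hx
    obtain ⟨b, hb, rfl⟩ := hy
    refine ⟨fun i => a i * b i, fun i hi => ?_, ?_⟩
    · show a i * b i = 1
      rw [ha i hi, hb i hi, one_mul]
    · rw [← Finset.prod_mul_distrib]
      rfl

theorem lemD (x : L) (hx : x ∈ ⨆ i : P, F i) :
    ∃ s ∈ Algebra.adjoin k (⋃ i : P, (F i : Set L)), s ≠ 0 ∧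
      s * x ∈ Algebra.adjoin k (⋃ i : P, (F i : Set L)) := by
  rw [IntermediateField.iSup_eq_adjoin, IntermediateField.mem_adjoin_iff_div] at hx
  obtain ⟨r, hr, s, hs, rfl⟩ := hx
  by_cases h : s = 0
  · refine ⟨1, Subalgebra.one_mem _, one_ne_zero, ?_⟩
    rw [h, div_zero, mul_zero]
    exact Subalgebra.zero_mem _
  · exact ⟨s, hs, h, by rw [mul_div_cancel₀ _ h]; exact hr⟩

theorem lemE (T : Finset L) (hT : ∀ t ∈ T, t ∈ ⨆ i : P, F i) :
    ∃ g ∈ Algebra.adjoin k (⋃ i : P, (F i : Set L)), g ≠ 0 ∧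
      ∀ t ∈ T, g * t ∈ Algebra.adjoin k (⋃ i : P, (F i : Set L)) := by
  classical
  induction T using Finset.induction_on with
  | empty => exact ⟨1, Subalgebra.one_mem _, one_ne_zero, by simp⟩
  | insert a T ha ih =>
    obtain ⟨g, h1, h2, h3⟩ := ih fun z hz => hT z (Finset.mem_insert_of_mem hz)
    obtain ⟨s, s1, s2, s3⟩ := lemD F P a (hT a (Finset.mem_insert_self _ _))
    refine ⟨g * s, Subalgebra.mul_mem _ h1 s1, mul_ne_zero h2 s2, fun t ht => ?_⟩
    rcases Finset.mem_insert.1 ht with rfl | ht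
    · rw [mul_assoc]
      exact Subalgebra.mul_mem _ h1 s3
    · rw [mul_comm g s, mul_assoc]
      exact Subalgebra.mul_mem _ s1 (h3 t ht)

end

theorem main : Pool.Agent.W619.Y.S_DEN.{u, v} := by
  intro k L _ _ _ n F P T hT
  classical
  obtain ⟨g, h1, h2, h3⟩ := lemE F P T hT
  obtain ⟨H, hH, h4⟩ := lemB F P (insert g (T.image fun t => g * t)) (by
    intro z hz
    rcases Finset.mem_insert.1 hz with rfl | hz
    · exact lemC F P _ h1
    · obtain ⟨t, ht, rfl⟩ := Finset.mem_image.1 hz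
      exact lemC F P _ (h3 t ht))
  refine ⟨g, H, h2, hH.1, hH.2, fun s hs => ?_⟩
  rcases hs with rfl | hs
  · rw [mul_one]
    exact h4 g (Finset.mem_insert_self _ _)
  · exact h4 _ (Finset.mem_insert_of_mem (Finset.mem_image_of_mem _ hs))

end Pool.Agent.W741.PG.DEN

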